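import Pool.Agent.Work.MP_8db9c5_an.FG.All
import Pool.Agent.Work.MP_8db9c5_an.H71.Bridge

/-!
# Jamesifications whose isometry group is `{±1}` times a product of arbitrary finite groups

For all sequences of natural numbers `m k` and of groups `G k` acting faithfully on
`{0, …, m k - 1}` there is a reflexive real Banach space `X` with a normalized 1-unconditional
basis `b`, indexed by `0, 1, 2, …`, such that the isometry group of the Jamesification `J(b_i)` is
`{±1} × ∏_k G k`.  As every finite group acts faithfully on itself, every countable product of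
finite groups occurs.  If the `m k` are bounded then `X` is a renorming of `ℓ_2`.

The group acts on the vectors `dl e 0 = - e 0`, `dl e p = e (p - 1) - e p` (`p ≥ 1`), whose span is
dense: `G k` permutes the vectors `dl e (Bk (nn m) k + 2 + 2 i)`, `i < m k`, where
`Bk (nn m) k` is the sum of the `2 m j + 2`, `j < k`; the other vectors `dl e p` are fixed
(`IsomGroupEqAct`).
-/

universe u w

namespace Pool.Agent.Results.MP_8db9c5_an.FiniteGroups

open Pool.Agent.Work.MP_8db9c5_an Pool.Agent.Work.MP_8db9c5_an.FG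

theorem result (m : ℕ → ℕ) (G : ℕ → Type w) [∀ k, Group (G k)]
    [∀ k, MulAction (G k) (Fin (m k))] [∀ k, FaithfulSMul (G k) (Fin (m k))] :
    ∃ (X : Type) (_ : NormedAddCommGroup X) (_ : NormedSpace ℝ X) (_ : CompleteSpace X)
      (b : UnconditionalSchauderBasis ℕ ℝ X),
      IsReflexive X ∧ (∀ i, ‖b i‖ = 1) ∧ IsLatticeBasis b ∧
      (∀ K, (∀ k, m k ≤ K) → IsEquivLTwo b) ∧
      (∃ (E : Type) (_ : NormedAddCommGroup E) (_ : NormedSpace ℝ E) (_ : CompleteSpace E)
        (e : ℕ → E), IsJamesification b.basis e) ∧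
      ∀ (E : Type u) [NormedAddCommGroup E] [NormedSpace ℝ E] [CompleteSpace E] (e : ℕ → E),
        IsJamesification b.basis e → IsomGroupEqAct e m G := by
  set H : ∀ k, Subgroup (Equiv.Perm (Fin (m k))) :=
    fun k => (MulAction.toPermHom (G k) (Fin (m k))).range with hH
  have hF := XFGR.altF pr_WTA m H
  obtain ⟨X, i1, i2, i3, b, hX, hb⟩ := all_SPX (nn m) (FF m H) hF
  refine ⟨X, i1, i2, i3, b, hX, (all_FSM X b (nn m) (FF m H) hF hb).1,
    pr_LAT X b (nn m) (FF m H) hb, fun K hK => ?_,
    ⟨Pool.Agent.Jam.Jamesification b.basis, inferInstance, inferInstance, inferInstance,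
      Pool.Agent.Jam.ee b.basis, Pool.Agent.Jam.isJamesification_ee b.basis⟩,
    fun E _ _ _ e hJ => isomGroupEqAct_of_H (all_FGR m H X b hX hb E e hJ)⟩
  exact ⟨_, fun a N => ⟨all_FUP X b (nn m) (FF m H) hF hb a N,
    pr_EQV X b (nn m) (FF m H) hb (2 * K + 1) (fun k => by unfold nn; have := hK k; omega) a N⟩⟩

end Pool.Agent.Results.MP_8db9c5_an.FiniteGroups
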