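import Pool.Agent.Work.MP_8db9c5_an.Strict

/-!
# Jamesifications with trivial isometry group: rotund basis vectors

`X` is a reflexive real Banach space with a normalized unconditional basis `b`, indexed by
`0, 1, 2, …`, and `E` with the sequence `e` is its Jamesification `J(b_i)` (`IsJamesification`).
`b.proj A` is the basis projection `P_A` onto a finite set `A` of indices.

The first alternative of the hypothesis `h` says that `X` is strictly convex and that the
projections `P_A` have norm at most one. The second alternative is more general: it says that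
every basis vector `b p` is a point of rotundity of the unit ball of the span of `b 0, …, b p`, for
the norm `v ↦ sup_A ‖P_A v‖`. This norm is equivalent to the given one, it gives the same space
`J(b_i)`, and it is the given norm if all the projections `P_A` have norm at most one.
-/

namespace Pool.Agent.Results.MP_8db9c5_an.Rotund

open Pool.Agent.Work.MP_8db9c5_an

theorem result (X : Type*) [NormedAddCommGroup X] [NormedSpace ℝ X] [CompleteSpace X]
    (hrefl : Function.Surjective (NormedSpace.inclusionInDoubleDual ℝ X))
    (b : UnconditionalSchauderBasis ℕ ℝ X) (hn : ∀ i, ‖b i‖ = 1)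
    (h : (StrictConvexSpace ℝ X ∧ ∀ A : Finset ℕ, ‖b.proj A‖ ≤ 1) ∨
      ∀ (p : ℕ) (v : X), v ∈ Submodule.span ℝ (b.basis '' Set.Iic p) →
        (∀ A : Finset ℕ, ‖b.proj A v‖ ≤ 1) → (∃ A : Finset ℕ, ‖b.proj A (v + b p)‖ = 2) →
        v = b p)
    (E : Type*) [NormedAddCommGroup E] [NormedSpace ℝ E] [CompleteSpace E] (e : ℕ → E)
    (hJ : IsJamesification b.basis e) (T : E ≃ₗᵢ[ℝ] E) :
    (∀ z, T z = z) ∨ (∀ z, T z = -z) := by
  rcases h with ⟨h1, h2⟩ | h
  · exact rotund_trivial hrefl hn hJ (rotundAt_of_strictConvex b hn h2) T
  · exact rotund_trivial hrefl hn hJ h T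

end Pool.Agent.Results.MP_8db9c5_an.Rotund
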