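import Pool.Agent.Work.MP_8db9c5_an.Group

/-!
# Isometries of Jamesifications: smooth basis vectors

`X` is a reflexive real Banach space with a normalized unconditional basis `b`, indexed by
`0, 1, 2, …`, and `E` with the sequence `e` is its Jamesification `J(b_i)` (`IsJamesification`).
The vectors `dl e n` are `- e 0, e 0 - e 1, e 1 - e 2, …`.

The hypothesis `hS` says that the norm of `X` is differentiable at `b p` in the direction `b i`
with derivative zero, for all `i < p`.

* First part: up to a common sign, every isometry permutes the vectors `dl e n`.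
* Second part: if `‖b_j - b_{j+1}‖ > 1` for all `j` then the isometry group is trivial.
* Third part: if `‖b_u - b_q‖ > 1` for all `u < q` with `n ≤ q` then the isometries fix the vectors
  `dl e m`, `m ≥ n`, up to the common sign; if moreover the first `n` basis vectors enter the norm
  only by the maximum of their coefficients (`HeadSup`) then the group is `{±1} × S_n`.
-/

namespace Pool.Agent.Results.MP_8db9c5_an.Smooth

open Pool.Agent.Work.MP_8db9c5_an Filter Topology

theorem result (X : Type*) [NormedAddCommGroup X] [NormedSpace ℝ X] [CompleteSpace X]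
    (hrefl : Function.Surjective (NormedSpace.inclusionInDoubleDual ℝ X))
    (b : UnconditionalSchauderBasis ℕ ℝ X) (hn : ∀ i, ‖b i‖ = 1)
    (hS : ∀ (p i : ℕ), i < p → ∀ s : ℝ, (s = 1 ∨ s = -1) →
      Tendsto (fun M : ℝ => ‖M • b p + s • b i‖ - M) atTop (𝓝 0))
    (E : Type*) [NormedAddCommGroup E] [NormedSpace ℝ E] [CompleteSpace E] (e : ℕ → E)
    (hJ : IsJamesification b.basis e) :
    (∀ T : E ≃ₗᵢ[ℝ] E, ∃ (s : ℝ) (π : Equiv.Perm ℕ), (s = 1 ∨ s = -1) ∧
      ∀ n, T (dl e n) = s • dl e (π n)) ∧
    ((∀ j, 1 < ‖b j - b (j + 1)‖) →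
      ∀ T : E ≃ₗᵢ[ℝ] E, (∀ z, T z = z) ∨ (∀ z, T z = -z)) ∧
    ∀ n : ℕ, (∀ u q : ℕ, u < q → n ≤ q → 1 < ‖b u - b q‖) →
      IsometriesPermute e n ∧ (1 ≤ n → HeadSup b n → IsomGroupEqSym e n) :=
  ⟨fun T => smooth_structure hrefl hn hJ hS T, fun h T => smooth_trivial hrefl hn hJ hS h T,
    fun _ hsep => ⟨fun T => group_structure hrefl hn hJ hS hsep T,
      fun hn1 hH => group_equiv hrefl hn hJ hS hn1 hH hsep⟩⟩

end Pool.Agent.Results.MP_8db9c5_an.Smooth
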