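import Pool.Agent.Work.MP_8db9c5_an.H71.Str4

/-!
# Jamesifications of strictly convex spaces: the isometries

The basis `b` is indexed by `0, 1, 2, …`; `E` with the sequence `e` is the Jamesification `J(b_i)`
(`IsJamesification`).  `IsExchange e T` says that `T = U` or `T = -U`, where `U e_0 = e_1 - e_0` and
`U e_k = e_k` for `k ≥ 1`.
-/

namespace Pool.Agent.Results.MP_8db9c5_an.StrictlyConvex

open Pool.Agent.Work.MP_8db9c5_an Pool.Agent.Work.MP_8db9c5_an.H71

universe u v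

/-- **Theorem.**  Let `X` be a reflexive, strictly convex real Banach space with a normalized
unconditional basis.  Then every surjective linear isometry of `J(b_i)` is `Id`, `-Id`, `U` or
`-U`, and `±U` are excluded if `‖b_0 - b_1‖ > 1` or if `‖b_0 + t b_1‖ ≥ 1` for all real `t`.
The operator `U` does occur, for a normalized unconditional basis of `ℓ²`. -/
theorem result :
    (∀ (X : Type u) [NormedAddCommGroup X] [NormedSpace ℝ X] [CompleteSpace X]
      [StrictConvexSpace ℝ X], Function.Surjective (NormedSpace.inclusionInDoubleDual ℝ X) →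
      ∀ b : UnconditionalSchauderBasis ℕ ℝ X, (∀ i, ‖b i‖ = 1) →
      ∀ (E : Type v) [NormedAddCommGroup E] [NormedSpace ℝ E] [CompleteSpace E] (e : ℕ → E),
      IsJamesification b.basis e → ∀ T : E ≃ₗᵢ[ℝ] E,
      (∀ z, T z = z) ∨ (∀ z, T z = -z) ∨
        (‖b 0 - b 1‖ ≤ 1 ∧ (∃ t : ℝ, ‖b 0 + t • b 1‖ < 1) ∧ IsExchange e T)) ∧
    (∃ b : UnconditionalSchauderBasis ℕ ℝ (lp (fun _ : ℕ => ℝ) 2), (∀ i, ‖b i‖ = 1) ∧
      ∃ (E : Type) (_ : NormedAddCommGroup E) (_ : NormedSpace ℝ E) (_ : CompleteSpace E)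
        (e : ℕ → E), IsJamesification b.basis e ∧
        ∃ T : E ≃ₗᵢ[ℝ] E, IsExchange e T ∧ ¬ (∀ z, T z = z) ∧ ¬ (∀ z, T z = -z)) := by
  refine ⟨fun X _ _ _ _ hrefl b hn E _ _ _ e hJ T => final hrefl hn hJ T, ?_⟩
  obtain ⟨hn, hJ, T, h0, h1⟩ := Pool.Agent.Jam.hilbert_U
  exact ⟨Pool.Agent.Jam.bh, hn, Pool.Agent.Jam.Jamesification Pool.Agent.Jam.bh.basis,
    inferInstance, inferInstance, inferInstance, Pool.Agent.Jam.ee _, hJ, T,
    exchange_ne hJ h0 h1⟩

end Pool.Agent.Results.MP_8db9c5_an.StrictlyConvex
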